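import Pool.Agent.helper80.EN.Spec2

/-!
# Row RRF (helper84): an elliptic isometry preserving a line is trivial or a reflection on it
-/

set_option autoImplicit false

namespace Pool.Agent.helper80.EN

universe u

/-- row RRF -/
theorem RRF (hLNA : LNA_stmt.{u}) : RRF_stmt.{u} := by
  intro G V _ _ d hA a hell f hf hpres hmove
  obtain ⟨_, h2, _⟩ := hLNA V d hA.tm
  have hf' : Par d (fun n => a • f n) := by
    intro m n
    rw [hA.iso]
    exact hf m n
  obtain ⟨ε, t, hε, ht⟩ := h2 (fun n => a • f n) f hf' hf hpres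
  have ht' : ∀ n : ℤ, a • f n = f (ε * n + t) := ht
  obtain ⟨q, hq⟩ := hell
  rcases hε with hε | hε
  · exfalso
    subst hε
    have ht0 : t ≠ 0 := by
      rintro rfl
      obtain ⟨n, hn⟩ := hmove
      exact hn (by rw [ht' n]; congr 1; ring)
    have hk : ∀ k : ℕ, d q (f ((k : ℤ) * t)) = d q (f 0) := by
      intro k
      induction k with
      | zero => simp
      | succ k ih =>
        have e : f (((k + 1 : ℕ) : ℤ) * t) = a • f ((k : ℤ) * t) := by
          rw [ht' ((k : ℤ) * t)]; congr 1; push_cast; ring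
        have h3 : d q (a • f ((k : ℤ) * t)) = d (a • q) (a • f ((k : ℤ) * t)) := by rw [hq]
        rw [e, h3, hA.iso, ih]
    have hK := hk (2 * d q (f 0) + 1)
    have htri := hA.tm.tri (f 0) q (f (((2 * d q (f 0) + 1 : ℕ) : ℤ) * t))
    rw [hK, hA.tm.symm (f 0) q] at htri
    have hd := hf 0 (((2 * d q (f 0) + 1 : ℕ) : ℤ) * t)
    have h4 : |(0 : ℤ) - ((2 * d q (f 0) + 1 : ℕ) : ℤ) * t| =
        ((2 * d q (f 0) + 1 : ℕ) : ℤ) * |t| := by
      rw [zero_sub, abs_neg, abs_mul, Nat.abs_cast]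
    rw [h4] at hd
    have h5 : (1 : ℤ) ≤ |t| := Int.one_le_abs ht0
    have h6 : (((d (f 0) (f (((2 * d q (f 0) + 1 : ℕ) : ℤ) * t))) : ℕ) : ℤ) ≤
        ((d q (f 0) + d q (f 0) : ℕ) : ℤ) := by exact_mod_cast htri
    rw [hd] at h6
    have h7 : ((2 * d q (f 0) + 1 : ℕ) : ℤ) * 1 ≤ ((2 * d q (f 0) + 1 : ℕ) : ℤ) * |t| :=
      mul_le_mul_of_nonneg_left h5 (Int.natCast_nonneg _)
    push_cast at h6 h7
    linarith
  · subst hε
    rcases Int.even_or_odd' t with ⟨c, hc | hc⟩
    · refine ⟨c, fun n => ?_⟩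
      rw [ht' (c + n)]
      congr 1
      rw [hc]; ring
    · exfalso
      have e1 : a • f c = f (c + 1) := by
        rw [ht' c]; congr 1; rw [hc]; ring
      have e2 : a • f (c + 1) = f c := by
        rw [ht' (c + 1)]; congr 1; rw [hc]; ring
      have e3 : d (f c) (f (c + 1)) = 1 := by
        have := hf c (c + 1)
        have h8 : |c - (c + 1)| = 1 := by
          rw [show c - (c + 1) = (-1 : ℤ) by ring]; simp
        rw [h8] at this
        exact_mod_cast this
      exact hA.inv a (f c) (f (c + 1)) e3 e1 e2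

end Pool.Agent.helper80.EN
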