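import Pool.Agent.helper80.EN.Spec2

/-!
# Row RAX (helper84): an elliptic element preserving all axes and acting as a reflection on one
-/

set_option autoImplicit false

namespace Pool.Agent.helper80.EN

universe u

/-- row RAX -/
theorem RAX (hTHB : THB_stmt.{u}) (hTHC : THC_stmt.{u}) (hTHU : THU_stmt.{u})
    (hLNA : LNA_stmt.{u}) (hRRF : RRF_stmt.{u}) (hRPJ : RPJ_stmt.{u}) (hTG : TG_stmt.{u}) :
    RAX_stmt.{u} := by
  intro G V _ _ _ d hA a hell hpres g hg hmove h x0 hx0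
  obtain ⟨f, τ, hτ, hf, hgf⟩ := hTHB G V d hA g hg
  have hAx : Ax d g = Set.range f := hTHC G V d hA g f τ hτ hf hgf
  obtain ⟨hU1, _, hU3, hU4⟩ := hTHU G V d hA
  obtain ⟨hL1, _, hL3⟩ := hLNA V d hA.tm
  obtain ⟨_, _, hT3, _⟩ := hTG V d hA.tm
  -- the reflection
  have hpf : ∀ n, ∃ m, a • f n = f m := by
    intro n
    have h1 : f n ∈ Ax d g := by rw [hAx]; exact ⟨n, rfl⟩
    have h2 := hpres g hg (f n) h1
    rw [hAx] at h2
    obtain ⟨m, hm⟩ := h2
    exact ⟨m, hm.symm⟩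
  have hmf : ∃ n, a • f n ≠ f n := by
    obtain ⟨x, hx, hne⟩ := hmove
    rw [hAx] at hx
    obtain ⟨n, hn⟩ := hx
    exact ⟨n, by rw [hn]; exact hne⟩
  obtain ⟨c, hc⟩ := hRRF G V d hA a hell f hf hpf hmf
  -- the translates of the axis
  let AX : G → Set V := fun u => Ax d ((u⁻¹)⁻¹ * g * u⁻¹)
  have hAXmem : ∀ (u : G) (x : V), x ∈ AX u ↔ u⁻¹ • x ∈ Ax d g := fun u x => hU3 g u⁻¹ x
  have hnell : ∀ u : G, ¬ Ell V ((u⁻¹)⁻¹ * g * u⁻¹) := by
    intro u h1
    exact hg ((hU4 g u⁻¹).mp h1)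
  have hline : ∀ u : G, IsLine d (AX u) := fun u => hU1 _ (hnell u)
  have hcvx : ∀ u : G, Cvx d (AX u) := by
    intro u
    obtain ⟨f', hf', hr⟩ := hline u
    rw [← hr]
    exact hL1 f' hf'
  have hne : ∀ u : G, (AX u).Nonempty := by
    intro u
    obtain ⟨f', hf', hr⟩ := hline u
    rw [← hr]
    exact ⟨f' 0, 0, rfl⟩
  have hproj : ∀ u : G, ∃ x ∈ AX u, ∀ n, Bt d x (f c) (f n) := fun u =>
    hRPJ G V d hA a f c hf hc (AX u) (hcvx u) (hne u) (hpres _ (hnell u))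
  have hpow : ∀ (k : ℕ) (m : ℤ), g ^ k • f m = f (m + k * τ) := by
    intro k
    induction k with
    | zero => intro m; simp
    | succ k ih =>
      intro m
      rw [pow_succ, mul_smul, hgf m, ih (m + τ)]
      congr 1; push_cast; ring
  have hpow' : ∀ (k : ℕ) (m : ℤ), (g ^ k)⁻¹ • f m = f (m - k * τ) := by
    intro k m
    rw [inv_smul_eq_iff, hpow k (m - k * τ)]
    congr 1; ring
  -- points in the translated axis
  have hin : ∀ k : ℕ, 1 ≤ k → f (c - k * τ) ∈ AX h ∧ f (c + k * τ) ∈ AX h := by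
    intro k hk
    obtain ⟨x₁, hx₁, hb₁⟩ := hproj (g ^ k * h)
    obtain ⟨x₂, hx₂, hb₂⟩ := hproj ((g ^ k)⁻¹ * h)
    have hy₁ : (g ^ k)⁻¹ • x₁ ∈ AX h := by
      rw [hAXmem]
      rw [hAXmem] at hx₁
      rw [mul_inv_rev, mul_smul] at hx₁
      exact hx₁
    have hy₂ : g ^ k • x₂ ∈ AX h := by
      rw [hAXmem]
      rw [hAXmem] at hx₂
      rw [mul_inv_rev, inv_inv, mul_smul] at hx₂
      exact hx₂
    have hg₁ : ∀ n, Bt d ((g ^ k)⁻¹ • x₁) (f (c - k * τ)) (f n) := by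
      intro n
      have h1 := hb₁ (n + k * τ)
      unfold Bt at h1 ⊢
      rw [← hpow' k c]
      have e : f n = (g ^ k)⁻¹ • f (n + k * τ) := by
        rw [hpow' k]; congr 1; ring
      rw [e, hA.iso, hA.iso, hA.iso]
      exact h1
    have hg₂ : ∀ n, Bt d (g ^ k • x₂) (f (c + k * τ)) (f n) := by
      intro n
      have h1 := hb₂ (n - k * τ)
      unfold Bt at h1 ⊢
      rw [← hpow k c]
      have e : f n = g ^ k • f (n - k * τ) := by
        rw [hpow k]; congr 1; ring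
      rw [e, hA.iso, hA.iso, hA.iso]
      exact h1
    have hkτ : 1 ≤ (k : ℤ) * τ := by
      have : (1 : ℤ) ≤ k := by exact_mod_cast hk
      nlinarith
    have hneq : f (c - k * τ) ≠ f (c + k * τ) := by
      intro he
      have h1 := hf (c - k * τ) (c + k * τ)
      have h2 : d (f (c - k * τ)) (f (c + k * τ)) = 0 := (hA.tm.eq _ _).mpr he
      rw [h2] at h1
      have h3 : |c - k * τ - (c + k * τ)| = 0 := by
        rw [← h1]; simp
      have h4 := abs_eq_zero.mp h3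
      linarith
    have h5 : Bt d (f (c - k * τ)) (f (c + k * τ)) (g ^ k • x₂) := by
      have h6 := hg₂ (c - k * τ)
      unfold Bt at h6 ⊢
      rw [hA.tm.symm (f (c - k * τ)) (f (c + k * τ)), hA.tm.symm (f (c + k * τ)) (g ^ k • x₂),
        hA.tm.symm (f (c - k * τ)) (g ^ k • x₂), ← h6]
      ring
    obtain ⟨h7, h8, _⟩ := hT3 _ _ _ _ (hg₁ (c + k * τ)) h5 hneq
    exact ⟨hcvx h _ hy₁ _ hy₂ _ h7, hcvx h _ hy₁ _ hy₂ _ h8⟩
  -- the axis is contained in the translate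
  have hsub : Ax d g ⊆ AX h := by
    intro x hx
    rw [hAx] at hx
    obtain ⟨n, rfl⟩ := hx
    obtain ⟨k, hk1, hk2⟩ : ∃ k : ℕ, 1 ≤ k ∧ |n - c| ≤ k := by
      refine ⟨(n - c).natAbs + 1, by omega, ?_⟩
      push_cast
      linarith [abs_nonneg (n - c)]
    obtain ⟨h1, h2⟩ := hin k hk1
    have hkτ : (k : ℤ) ≤ k * τ := by
      have : (0 : ℤ) ≤ k := Int.natCast_nonneg _
      nlinarith
    have hb := abs_le.mp hk2
    refine hcvx h _ h1 _ h2 _ ?_
    unfold Bt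
    have e1 := hf (c - k * τ) n
    have e2 := hf n (c + k * τ)
    have e3 := hf (c - k * τ) (c + k * τ)
    rw [abs_of_nonpos (by linarith)] at e1 e2 e3
    have : ((d (f (c - k * τ)) (f n) + d (f n) (f (c + k * τ)) : ℕ) : ℤ) =
        ((d (f (c - k * τ)) (f (c + k * τ)) : ℕ) : ℤ) := by
      push_cast
      rw [e1, e2, e3]; ring
    exact_mod_cast this
  have heq : Ax d g = AX h := hL3 _ _ (hU1 g hg) (hline h) hsub
  rw [heq, hAXmem, inv_smul_smul]
  exact hx0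

end Pool.Agent.helper80.EN
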